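import Pool.Agent.H62.BrMax
import Pool.Agent.H38.BR.Hit

set_option autoImplicit false

/-!
# Two levels of classes

`M` is a finite set of elements of a finite lattice such that every join of members of `M` is the
join of at most `b` of them.  The first level uses a hitting set for all large sets
`[m, 1] \ [z, 1]`, the second level a hitting set for the large sets `[q, 1] \ [z, 1]` where `q`
and `z` are joins of the elements `g m` of the first level.
-/

namespace Pool.Agent.H34.VC.TwoLev

open Classical in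
/-- Few classes; the elements `g m` are joins of members of `Mx`. -/
theorem classes {L : Type*} [Lattice L] [BoundedOrder L] [Fintype L] (b : ℕ) (Mx : Finset L)
    (h : ∀ A ⊆ Mx, ∃ B ⊆ A, B.card ≤ b ∧ B.sup id = A.sup id) (Y : Finset L) :
    ∃ (g cls : L → L),
      (∀ m ∈ Mx, m ≤ g m) ∧
      (∀ m y : L, y ∈ Y → m ≤ y → g m ≤ y) ∧
      (∀ x x', cls x = cls x' → ∀ m : L, (g m ≤ x ↔ g m ≤ x')) ∧
      (∀ m : L, ∃ A ⊆ Mx, g m = A.sup id) ∧
      ((Finset.univ : Finset L).image cls).card ≤ ((Y.card + 1) ^ b + 1) ^ b := by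
  set g : L → L := fun m => (Mx.filter (fun m' => ∀ y ∈ Y, m ≤ y → m' ≤ y)).sup id with hg
  set val : (Fin b → L) → L := fun f => (Mx.filter (fun m' => ∀ i, m' ≤ f i)).sup id with hval
  set G : Finset L := (Fintype.piFinset (fun _ : Fin b => insert ⊤ Y)).image val with hG
  have hgG : ∀ m : L, g m ∈ G := by
    intro m
    obtain ⟨T, hTS, hTb, hT⟩ := H62.BrMax.few_bounds b Mx h (Y.filter (fun y => m ≤ y))
    rw [hG, Finset.mem_image]
    obtain ⟨f, hf⟩ : ∃ f : Fin b → L, ∀ i, f i =
        if h : i.val < T.card then ((T.equivFin.symm ⟨i.val, h⟩ : T) : L) else ⊤ :=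
      ⟨_, fun _ => rfl⟩
    refine ⟨f, ?_, ?_⟩
    · rw [Fintype.mem_piFinset]
      intro i
      rw [hf]
      by_cases h : i.val < T.card
      · rw [dif_pos h]
        exact Finset.mem_insert_of_mem
          (Finset.filter_subset _ _ (hTS (T.equivFin.symm ⟨i.val, h⟩).2))
      · rw [dif_neg h]
        exact Finset.mem_insert_self _ _
    · have hfe : Mx.filter (fun m' => ∀ i, m' ≤ f i) =
          Mx.filter (fun m' => ∀ y ∈ Y, m ≤ y → m' ≤ y) := by
        ext m'
        simp only [Finset.mem_filter]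
        refine and_congr_right fun hm' => ?_
        constructor
        · intro hi y hy hmy
          refine hT m' hm' ?_ y (Finset.mem_filter.2 ⟨hy, hmy⟩)
          intro t ht
          have hlt : (T.equivFin ⟨t, ht⟩).val < b := lt_of_lt_of_le (T.equivFin ⟨t, ht⟩).2 hTb
          have h1 := hi ⟨(T.equivFin ⟨t, ht⟩).val, hlt⟩
          rw [hf, dif_pos (T.equivFin ⟨t, ht⟩).2] at h1
          simpa using h1
        · intro hy i
          rw [hf]
          by_cases h : i.val < T.card
          · rw [dif_pos h]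
            have h1 := hTS (T.equivFin.symm ⟨i.val, h⟩).2
            rw [Finset.mem_filter] at h1
            exact hy _ h1.1 h1.2
          · rw [dif_neg h]
            exact le_top
      show (Mx.filter (fun m' => ∀ i, m' ≤ f i)).sup id = _
      rw [hfe]
  have hGcard : G.card ≤ (Y.card + 1) ^ b := H73.BrCls.card_aux b Y ⊤ _
  have hGM : ∀ u ∈ G, ∃ A ⊆ Mx, u = A.sup id := by
    intro u hu
    obtain ⟨f, _, rfl⟩ := Finset.mem_image.1 hu
    exact ⟨_, Finset.filter_subset _ _, rfl⟩
  refine ⟨g, fun x => (G.filter (fun u => u ≤ x)).sup id, ?_, ?_, ?_,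
    fun m => ⟨_, Finset.filter_subset _ _, rfl⟩, ?_⟩
  · intro m hm
    exact Finset.le_sup (f := id) (Finset.mem_filter.2 ⟨hm, fun y _ hmy => hmy⟩)
  · intro m y hy hmy
    refine Finset.sup_le ?_
    intro m' hm'
    exact (Finset.mem_filter.1 hm').2 y hy hmy
  · have key : ∀ x u : L, u ∈ G → (u ≤ x ↔ u ≤ (G.filter (fun u => u ≤ x)).sup id) := by
      intro x u hu
      constructor
      · intro hux
        exact Finset.le_sup (f := id) (Finset.mem_filter.2 ⟨hu, hux⟩)
      · intro hux
        refine hux.trans (Finset.sup_le ?_)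
        intro u' hu'
        exact (Finset.mem_filter.1 hu').2
    intro x x' hxx m
    have hxx' : (G.filter (fun u => u ≤ x)).sup id = (G.filter (fun u => u ≤ x')).sup id := hxx
    rw [key x _ (hgG m), key x' _ (hgG m), hxx']
  · have hsub : (Finset.univ : Finset L).image (fun x => (G.filter (fun u => u ≤ x)).sup id) ⊆
        (Fintype.piFinset (fun _ : Fin b => insert ⊥ G)).image (fun f => Finset.univ.sup f) := by
      intro s hs
      obtain ⟨x, _, rfl⟩ := Finset.mem_image.1 hs
      show (G.filter (fun u => u ≤ x)).sup id ∈ _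
      set A : Finset L := Mx.filter (fun m' => ∃ u ∈ G, u ≤ x ∧ m' ≤ u) with hA
      obtain ⟨B, hBA, hBb, hB⟩ := h A (Finset.filter_subset _ _)
      have hAJ : A.sup id = (G.filter (fun u => u ≤ x)).sup id := by
        apply le_antisymm
        · refine Finset.sup_le ?_
          intro m' hm'
          obtain ⟨_, u, hu, hux, hmu⟩ := Finset.mem_filter.1 hm'
          exact hmu.trans (Finset.le_sup (f := id) (Finset.mem_filter.2 ⟨hu, hux⟩))
        · refine Finset.sup_le ?_
          intro u hu
          rw [Finset.mem_filter] at hu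
          obtain ⟨C, hC, rfl⟩ := hGM u hu.1
          refine Finset.sup_mono ?_
          intro m' hm'
          exact Finset.mem_filter.2 ⟨hC hm', _, hu.1, hu.2, Finset.le_sup (f := id) hm'⟩
      have hex : ∀ m' ∈ B, ∃ u ∈ G, u ≤ x ∧ m' ≤ u := fun m' hm' =>
        (Finset.mem_filter.1 (hBA hm')).2
      choose! γ hγG hγx hγm using hex
      have hT1 : B.image γ ⊆ G.filter (fun u => u ≤ x) := by
        intro u hu
        obtain ⟨m', hm', rfl⟩ := Finset.mem_image.1 hu
        exact Finset.mem_filter.2 ⟨hγG m' hm', hγx m' hm'⟩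
      have hT2 : (B.image γ).sup id = (G.filter (fun u => u ≤ x)).sup id := by
        apply le_antisymm (Finset.sup_mono hT1)
        rw [← hAJ, ← hB]
        refine Finset.sup_le ?_
        intro m' hm'
        exact (hγm m' hm').trans (Finset.le_sup (f := id) (Finset.mem_image_of_mem γ hm'))
      rw [← hT2]
      exact H73.BrCls.sup_mem b G (B.image γ) (hT1.trans (Finset.filter_subset _ _))
        (Finset.card_image_le.trans hBb)
    refine (Finset.card_le_card hsub).trans ((H73.BrCls.card_aux b G ⊥ _).trans ?_)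
    exact Nat.pow_le_pow_left (Nat.succ_le_succ hGcard) b


open Classical in
/-- The number of sets `{m ∈ M : g m ≤ x}`. -/
theorem card_sets {L κ : Type*} [Lattice L] [Fintype L] (M : Finset L) (g : L → L) (cls : L → κ)
    (h : ∀ x x', cls x = cls x' → ∀ m : L, (g m ≤ x ↔ g m ≤ x')) (K : ℕ)
    (hK : ((Finset.univ : Finset L).image cls).card ≤ K) :
    ((Finset.univ : Finset L).image (fun x => M.filter (fun m => g m ≤ x))).card ≤ K := by
  refine le_trans ?_ hK
  have h1 : (Finset.univ : Finset L).image (fun x => M.filter (fun m => g m ≤ x)) =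
      ((Finset.univ : Finset L).image cls).image
        (fun k => M.filter (fun m => ∃ x, cls x = k ∧ g m ≤ x)) := by
    rw [Finset.image_image]
    refine Finset.image_congr fun x _ => ?_
    simp only [Function.comp]
    refine Finset.filter_congr fun m _ => ?_
    exact ⟨fun hx => ⟨x, rfl, hx⟩, fun ⟨x', hx', hm⟩ => (h x' x hx' m).1 hm⟩
  rw [h1]
  exact Finset.card_image_le

open Classical in
/-- Counting the elements above `m`, when the set `Y` meets every large set of a family which
contains `[m, 1] \ [g, 1]`. -/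
theorem card_le_add {L : Type*} [Lattice L] [Fintype L] (m g : L) (e : ℝ)
    (hlt : ((Finset.univ.filter fun y : L => m ≤ y ∧ ¬ g ≤ y).card : ℝ) ≤ e) :
    ((Finset.univ.filter fun y : L => m ≤ y).card : ℝ) ≤
      ((Finset.univ.filter fun y : L => g ≤ y).card : ℝ) + e := by
  have h1 : (Finset.univ.filter fun y : L => m ≤ y) ⊆
      (Finset.univ.filter fun y : L => g ≤ y) ∪
        (Finset.univ.filter fun y : L => m ≤ y ∧ ¬ g ≤ y) := by
    intro y hy
    simp only [Finset.mem_union, Finset.mem_filter, Finset.mem_univ, true_and] at hy ⊢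
    tauto
  have h2 := (Finset.card_le_card h1).trans (Finset.card_union_le _ _)
  have h3 : ((Finset.univ.filter fun y : L => m ≤ y).card : ℝ) ≤
      ((Finset.univ.filter fun y : L => g ≤ y).card : ℝ) +
        ((Finset.univ.filter fun y : L => m ≤ y ∧ ¬ g ≤ y).card : ℝ) := by exact_mod_cast h2
  linarith

open Classical in
/-- One level, for an arbitrary finite set `Q` of elements and a set `Z` of possible joins. -/
theorem hit {L : Type*} [Lattice L] [BoundedOrder L] [Fintype L] (b : ℕ) (Q Z : Finset L)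
    (hb : ∀ A ⊆ Q, ∃ B ⊆ A, B.card ≤ b ∧ B.sup id = A.sup id)
    (hQZ : Q ⊆ Z) (hZ : ∀ A ⊆ Q, A.sup id ∈ Z)
    (e : ℝ) (t : ℕ) (ht : 2 * Real.log Z.card < e * t) :
    ∃ g : L → L, (∀ q ∈ Q, q ≤ g q) ∧ (∀ q : L, ∃ A ⊆ Q, g q = A.sup id) ∧
      (∀ q ∈ Q, ((Finset.univ.filter fun y : L => q ≤ y).card : ℝ) ≤
        ((Finset.univ.filter fun y : L => g q ≤ y).card : ℝ) + e * Fintype.card L) ∧
      ∃ cls : L → L, (∀ x x', cls x = cls x' → ∀ m : L, (g m ≤ x ↔ g m ≤ x')) ∧
        ((Finset.univ : Finset L).image cls).card ≤ ((t + 1) ^ b + 1) ^ b := by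
  set s : Finset (L × L) := (Z ×ˢ Z).filter (fun p => e * Fintype.card L ≤
    ((Finset.univ.filter fun y : L => p.1 ≤ y ∧ ¬ p.2 ≤ y).card : ℝ)) with hs
  have hscard : Real.log s.card < e * t := by
    refine lt_of_le_of_lt ?_ ht
    rcases s.eq_empty_or_nonempty with h0 | h0
    · rw [h0]
      simp only [Finset.card_empty, Nat.cast_zero, Real.log_zero]
      have := Real.log_natCast_nonneg Z.card
      linarith
    · have h1 : (s.card : ℝ) ≤ (Z.card : ℝ) * Z.card := by
        have : s.card ≤ (Z ×ˢ Z).card := Finset.card_le_card (Finset.filter_subset _ _)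
        rw [Finset.card_product] at this
        exact_mod_cast this
      have h2 : (0 : ℝ) < s.card := by exact_mod_cast Finset.card_pos.2 h0
      have h3 : (Z.card : ℝ) ≠ 0 := by
        intro h
        rw [h] at h1
        linarith
      calc Real.log s.card ≤ Real.log ((Z.card : ℝ) * Z.card) := Real.log_le_log h2 h1
        _ = 2 * Real.log Z.card := by rw [Real.log_mul h3 h3]; ring
  obtain ⟨Y, hY, hhit⟩ := H38.BR.hitting_log
    (fun p : L × L => Finset.univ.filter fun y : L => p.1 ≤ y ∧ ¬ p.2 ≤ y) s e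
    (fun p hp => (Finset.mem_filter.1 hp).2) t hscard
  obtain ⟨g, cls, h1, h2, h3, h4, h5⟩ := classes b Q hb Y
  refine ⟨g, h1, h4, fun q hq => ?_, cls, h3, h5.trans ?_⟩
  · refine card_le_add q (g q) _ ?_
    by_contra hcon
    push Not at hcon
    obtain ⟨A, hA, hgA⟩ := h4 q
    obtain ⟨y, hy, hyF⟩ := hhit (q, g q) (by
      rw [hs, Finset.mem_filter, Finset.mem_product]
      exact ⟨⟨hQZ hq, by rw [hgA]; exact hZ A hA⟩, hcon.le⟩)
    simp only [Finset.mem_filter, Finset.mem_univ, true_and] at hyF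
    exact hyF.2 (h2 q y hy hyF.1)
  · exact Nat.pow_le_pow_left (Nat.succ_le_succ (Nat.pow_le_pow_left (Nat.succ_le_succ hY) b)) b

open Classical in
/-- Two levels. -/
theorem two_levels {L : Type*} [Lattice L] [BoundedOrder L] [Fintype L] (b : ℕ) (M : Finset L)
    (hb : ∀ A ⊆ M, ∃ B ⊆ A, B.card ≤ b ∧ B.sup id = A.sup id)
    (e e1 : ℝ) (t t1 K K1 : ℕ) (hK : K = ((t + 1) ^ b + 1) ^ b)
    (hK1 : K1 = ((t1 + 1) ^ b + 1) ^ b)
    (ht : 2 * Real.log (Fintype.card L) < e * t) (ht1 : 2 * Real.log K < e1 * t1) :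
    ∃ g g1 : L → L, (∀ m ∈ M, m ≤ g m) ∧ (∀ m ∈ M, g m ≤ g1 m) ∧
      (∀ m ∈ M, ((Finset.univ.filter fun y : L => m ≤ y).card : ℝ) ≤
        ((Finset.univ.filter fun y : L => g m ≤ y).card : ℝ) + e * Fintype.card L) ∧
      (∀ m ∈ M, ((Finset.univ.filter fun y : L => g m ≤ y).card : ℝ) ≤
        ((Finset.univ.filter fun y : L => g1 m ≤ y).card : ℝ) + e1 * Fintype.card L) ∧
      ((Finset.univ : Finset L).image (fun x => M.filter (fun m => g m ≤ x))).card ≤ K ∧
      ((Finset.univ : Finset L).image (fun x => M.filter (fun m => g1 m ≤ x))).card ≤ K1 ∧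
      ∀ x x' : L, (∀ m ∈ M, (g m ≤ x ↔ g m ≤ x')) → ∀ m ∈ M, (g1 m ≤ x ↔ g1 m ≤ x') := by
  obtain ⟨g, hg1, hg2, hg3, cls, hg4, hg5⟩ := hit b M Finset.univ hb (Finset.subset_univ _)
    (fun A _ => Finset.mem_univ _) e t (by rw [Finset.card_univ]; exact ht)
  have hcs := card_sets M g cls hg4 K (hg5.trans hK.ge)
  -- the second level
  set Q : Finset L := M.image g with hQ
  have hbQ : ∀ A ⊆ Q, ∃ B ⊆ A, B.card ≤ b ∧ B.sup id = A.sup id := by
    intro A hA
    set C : Finset L := M.filter (fun m' => ∃ u ∈ A, m' ≤ u) with hC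
    obtain ⟨B, hBC, hBb, hB⟩ := hb C (Finset.filter_subset _ _)
    have hAC : A.sup id ≤ C.sup id := by
      refine Finset.sup_le fun u hu => ?_
      obtain ⟨m, _, hm⟩ := Finset.mem_image.1 (hA hu)
      obtain ⟨D, hD, hgD⟩ := hg2 m
      show u ≤ _
      rw [← hm, hgD]
      refine Finset.sup_mono fun m' hm' => ?_
      refine Finset.mem_filter.2 ⟨hD hm', u, hu, ?_⟩
      rw [← hm, hgD]
      exact Finset.le_sup (f := id) hm'
    have hex : ∀ m' ∈ B, ∃ u ∈ A, m' ≤ u := fun m' hm' => (Finset.mem_filter.1 (hBC hm')).2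
    choose! γ hγA hγ using hex
    refine ⟨B.image γ, ?_, Finset.card_image_le.trans hBb, ?_⟩
    · intro u hu
      obtain ⟨m', hm', rfl⟩ := Finset.mem_image.1 hu
      exact hγA m' hm'
    · apply le_antisymm
      · refine Finset.sup_le fun u hu => ?_
        obtain ⟨m', hm', rfl⟩ := Finset.mem_image.1 hu
        exact Finset.le_sup (f := id) (hγA m' hm')
      · refine hAC.trans ?_
        rw [← hB]
        refine Finset.sup_le fun m' hm' => ?_
        exact (hγ m' hm').trans (Finset.le_sup (f := id) (Finset.mem_image_of_mem γ hm'))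
  set Z : Finset L := (Finset.univ : Finset L).image (fun x => (Q.filter (fun q => q ≤ x)).sup id)
    with hZ
  have hZcard : Z.card ≤ K := by
    have h1 : Z = ((Finset.univ : Finset L).image (fun x => M.filter (fun m => g m ≤ x))).image
        (fun S => (S.image g).sup id) := by
      rw [hZ, Finset.image_image]
      refine Finset.image_congr fun x _ => ?_
      simp only [Function.comp]
      congr 1
      ext q
      simp only [hQ, Finset.mem_filter, Finset.mem_image]
      constructor
      · rintro ⟨⟨m, hm, rfl⟩, hx⟩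
        exact ⟨m, ⟨hm, hx⟩, rfl⟩
      · rintro ⟨m, ⟨hm, hx⟩, rfl⟩
        exact ⟨⟨m, hm, rfl⟩, hx⟩
    rw [h1]
    exact Finset.card_image_le.trans hcs
  have hZsup : ∀ A ⊆ Q, A.sup id ∈ Z := by
    intro A hA
    rw [hZ, Finset.mem_image]
    refine ⟨A.sup id, Finset.mem_univ _, ?_⟩
    apply le_antisymm
    · exact Finset.sup_le fun q hq => (Finset.mem_filter.1 hq).2
    · exact Finset.sup_mono fun q hq => Finset.mem_filter.2 ⟨hA hq, Finset.le_sup (f := id) hq⟩
  have hQZ : Q ⊆ Z := by
    intro q hq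
    have := hZsup {q} (by simpa using hq)
    simpa using this
  obtain ⟨h, hh1, hh2, hh3, cls1, hh4, hh5⟩ := hit b Q Z hbQ hQZ hZsup e1 t1 (by
    refine lt_of_le_of_lt ?_ ht1
    have hpos : 0 < Z.card := by
      rw [hZ]
      exact Finset.card_pos.2 ⟨_, Finset.mem_image_of_mem _ (Finset.mem_univ (⊥ : L))⟩
    have : Real.log Z.card ≤ Real.log K := by
      apply Real.log_le_log
      · exact_mod_cast hpos
      · exact_mod_cast hZcard
    linarith)
  refine ⟨g, fun m => h (g m), hg1, fun m hm => hh1 _ (Finset.mem_image_of_mem g hm), hg3,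
    fun m hm => hh3 _ (Finset.mem_image_of_mem g hm), hcs, ?_, ?_⟩
  · have h6 := card_sets Q h cls1 hh4 K1 (hh5.trans hK1.ge)
    refine le_trans ?_ h6
    have h7 : (Finset.univ : Finset L).image (fun x => M.filter (fun m => h (g m) ≤ x)) =
        ((Finset.univ : Finset L).image (fun x => Q.filter (fun q => h q ≤ x))).image
          (fun S => M.filter (fun m => g m ∈ S)) := by
      rw [Finset.image_image]
      refine Finset.image_congr fun x _ => ?_
      simp only [Function.comp]
      refine Finset.filter_congr fun m hm => ?_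
      rw [Finset.mem_filter]
      exact ⟨fun hx => ⟨Finset.mem_image_of_mem g hm, hx⟩, fun hx => hx.2⟩
    rw [h7]
    exact Finset.card_image_le
  · have key : ∀ x x' : L, (∀ m ∈ M, (g m ≤ x ↔ g m ≤ x')) → ∀ m ∈ M, h (g m) ≤ x →
        h (g m) ≤ x' := by
      intro x x' hxx m hm hx
      obtain ⟨A, hA, hhA⟩ := hh2 (g m)
      rw [hhA] at hx ⊢
      refine Finset.sup_le fun q hq => ?_
      obtain ⟨m', hm', hmq⟩ := Finset.mem_image.1 (hA hq)
      have : q ≤ x := (Finset.le_sup (f := id) hq).trans hx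
      show q ≤ x'
      rw [← hmq] at this ⊢
      exact (hxx m' hm').1 this
    intro x x' hxx m hm
    exact ⟨key x x' hxx m hm, key x' x (fun m hm => (hxx m hm).symm) m hm⟩

end Pool.Agent.H34.VC.TwoLev
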