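import Pool.Agent.H24.Ts
import Pool.Agent.H31.LB.ESet
import Pool.Agent.H40.VC.FinalS

set_option autoImplicit false

/-!
# The inequality obtained from two levels of classes
-/

namespace Pool.Agent.H34.VC.Core

open Finset Pool.Agent.H24.Sh

/-- If `y` is not below `v`, some join-irreducible below `y` is not below `v`. -/
lemma exists_irr {L : Type*} [Lattice L] [Finite L] {y v : L} (h : ¬ y ≤ v) :
    ∃ d : L, SupIrred d ∧ d ≤ y ∧ ¬ d ≤ v := by
  classical
  obtain ⟨c, hc⟩ := (Set.toFinite {c : L | c ≤ y ∧ ¬ c ≤ v}).exists_minimal ⟨y, le_rfl, h⟩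
  have key : ∀ e : L, e < c → e ≤ v := by
    intro e he
    by_contra hew
    exact absurd (hc.le_of_le ⟨he.le.trans hc.prop.1, hew⟩ he.le) (not_le_of_gt he)
  refine ⟨c, ⟨fun hmin => hc.prop.2 ((hmin inf_le_left).trans inf_le_right), ?_⟩,
    hc.prop.1, hc.prop.2⟩
  intro b d hbd
  by_contra hne
  push Not at hne
  have hb : b < c := lt_of_le_of_ne (hbd ▸ le_sup_left) hne.1
  have hd : d < c := lt_of_le_of_ne (hbd ▸ le_sup_right) hne.2
  exact hc.prop.2 (hbd ▸ sup_le (key b hb) (key d hd))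

/-- Meets with the members of `M` determine an element. -/
lemma le_of_inf_eq {L : Type*} [Lattice L] [Finite L] (M : Finset L)
    (hM : ∀ d : L, SupIrred d → ∃ m ∈ M, d ≤ m) {x y : L}
    (h : ∀ m ∈ M, x ⊓ m = y ⊓ m) : x ≤ y := by
  by_contra hxy
  obtain ⟨d, hd, hdx, hdy⟩ := exists_irr hxy
  obtain ⟨m, hm, hdm⟩ := hM d hd
  exact hdy ((le_inf hdx hdm).trans ((h m hm).le.trans inf_le_left))

open Classical in
/-- The inequality obtained from two levels of classes. -/
theorem core {L : Type*} [Lattice L] [BoundedOrder L] [Fintype L] (M : Finset L)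
    (hM : ∀ d : L, SupIrred d → ∃ m ∈ M, d ≤ m) (g g1 : L → L)
    (hg : ∀ m ∈ M, m ≤ g m) (hg1 : ∀ m ∈ M, g m ≤ g1 m)
    (e e1 : ℝ) (he : 0 ≤ e) (he1 : 0 ≤ e1) (h2 : 2 * e + 2 * e1 ≤ 1) (K K1 : ℕ)
    (hu : ∀ m ∈ M, (1 / 2 - e) * (Fintype.card L : ℝ) ≤
      ((univ.filter fun y : L => g m ≤ y).card : ℝ))
    (hu1 : ∀ m ∈ M, (1 / 2 - e - e1) * (Fintype.card L : ℝ) ≤
      ((univ.filter fun y : L => g1 m ≤ y).card : ℝ))
    (hK : ((univ : Finset L).image (fun x => M.filter (fun m => g m ≤ x))).card ≤ K)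
    (hK1 : ((univ : Finset L).image (fun x => M.filter (fun m => g1 m ≤ x))).card ≤ K1)
    (hgg : ∀ x x' : L, (∀ m ∈ M, (g m ≤ x ↔ g m ≤ x')) → ∀ m ∈ M, (g1 m ≤ x ↔ g1 m ≤ x'))
    (hN : 2 ≤ Fintype.card L)
    (heta : 32 * (e + Real.log K / (2 * Real.log (Fintype.card L))) ≤ 1) :
    (1 / 4) * Real.log (1 / (16 * (e + Real.log K / (2 * Real.log (Fintype.card L))))) ≤
      Real.log 2 + 2 * e * Real.log (Fintype.card L) + 2 * e1 * Real.log K + Real.log K1 := by
  set N : ℝ := (Fintype.card L : ℝ) with hNdef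
  have hNpos : 0 < N := by
    have : 0 < Fintype.card L := by omega
    rw [hNdef]
    exact_mod_cast this
  have hne : Nonempty L := ⟨⊥⟩
  set j : Fin M.card → L := fun i => (M.equivFin.symm i : L) with hj
  have hjM : ∀ i, j i ∈ M := fun i => (M.equivFin.symm i).2
  have hjs : ∀ m ∈ M, ∃ i, j i = m := fun m hm =>
    ⟨M.equivFin ⟨m, hm⟩, by simp [hj]⟩
  set cls : L → Finset L := fun x => M.filter (fun m => g m ≤ x) with hcls
  set cls1 : L → Finset L := fun x => M.filter (fun m => g1 m ≤ x) with hcls1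
  have mem_cls : ∀ x m, m ∈ M → (m ∈ cls x ↔ g m ≤ x) := fun x m hm => by
    simp [hcls, hm]
  have mem_cls1 : ∀ x m, m ∈ M → (m ∈ cls1 x ↔ g1 m ≤ x) := fun x m hm => by
    simp [hcls1, hm]
  have cls_iff : ∀ x x', cls x = cls x' ↔ ∀ m ∈ M, (g m ≤ x ↔ g m ≤ x') := by
    intro x x'
    constructor
    · intro h m hm
      rw [← mem_cls x m hm, ← mem_cls x' m hm, h]
    · intro h
      exact Finset.filter_congr fun m hm => h m hm
  have cls1_iff : ∀ x x', cls1 x = cls1 x' ↔ ∀ m ∈ M, (g1 m ≤ x ↔ g1 m ≤ x') := by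
    intro x x'
    constructor
    · intro h m hm
      rw [← mem_cls1 x m hm, ← mem_cls1 x' m hm, h]
    · intro h
      exact Finset.filter_congr fun m hm => h m hm
  have hinj : ∀ x y : L, (∀ i, x ⊓ j i = y ⊓ j i) → x = y := by
    intro x y h
    have h' : ∀ m ∈ M, x ⊓ m = y ⊓ m := by
      intro m hm
      obtain ⟨i, rfl⟩ := hjs m hm
      exact h i
    exact le_antisymm (le_of_inf_eq M hM h') (le_of_inf_eq M hM fun m hm => (h' m hm).symm)
  have hKr : (((@Finset.image L (Finset L) (fun a b => Classical.propDecidable (a = b)) cls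
      univ).card : ℕ) : ℝ) ≤ (K : ℝ) := by
    have h8 : (@Finset.image L (Finset L) (fun a b => Classical.propDecidable (a = b)) cls
        univ).card ≤ K := by
      refine (Finset.card_le_card fun s hs => ?_).trans hK
      simp only [Finset.mem_image] at hs ⊢
      exact hs
    exact Nat.cast_le.2 h8
  obtain ⟨E, hE1, hE2⟩ := Pool.Agent.H31.LB.eset j (fun i => g (j i)) (fun i => hg _ (hjM i)) hinj
    cls (fun x y h i => (cls_iff x y).1 h _ (hjM i)) K hKr e he hN
    (fun i => hu _ (hjM i)) heta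
  have htt : ∀ x x' y y', cls x = cls x' → cls y = cls y' → cls (x ⊓ y) = cls (x' ⊓ y') := by
    intro x x' y y' h h'
    rw [cls_iff] at h h' ⊢
    intro m hm
    rw [le_inf_iff, le_inf_iff, h m hm, h' m hm]
  have htt1 : ∀ x x' y y', cls1 x = cls1 x' → cls1 y = cls1 y' →
      cls1 (x ⊓ y) = cls1 (x' ⊓ y') := by
    intro x x' y y' h h'
    rw [cls1_iff] at h h' ⊢
    intro m hm
    rw [le_inf_iff, le_inf_iff, h m hm, h' m hm]
  set B : Finset L → Finset (Fin M.card) := fun T => univ.filter (fun i => j i ∈ T) with hB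
  have memB : ∀ i T, i ∈ B T ↔ j i ∈ T := fun i T => by simp [hB]
  -- the first step
  have hA : S (fun p : L × L => p.1 ⊓ p.2) + 2 * (1 / 2 - e) * (Fintype.card L : ℝ) *
      (S cls - S (id : L → L)) ≤ S (fun p : L × L => cls (p.1 ⊓ p.2)) := by
    have hkey : ∀ x x' y y' : L, cls y = cls y' → x ⊓ y = x' ⊓ y' →
        ∀ i, j i ∈ cls y → x ⊓ j i = x' ⊓ j i := by
      intro x x' y y' h h' i hi
      rw [mem_cls y _ (hjM i)] at hi
      have hi' := ((cls_iff y y').1 h _ (hjM i)).1 hi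
      have e3 : y ⊓ j i = j i := inf_eq_right.2 ((hg _ (hjM i)).trans hi)
      have e4 : y' ⊓ j i = j i := inf_eq_right.2 ((hg _ (hjM i)).trans hi')
      calc x ⊓ j i = x ⊓ (y ⊓ j i) := by rw [e3]
        _ = (x' ⊓ y') ⊓ j i := by rw [← inf_assoc, h']
        _ = x' ⊓ j i := by rw [inf_assoc, e4]
    refine two_step (fun x y : L => x ⊓ y) (id : L → L) cls (fun (i : Fin M.card) x => x ⊓ j i) B
      (1 / 2 - e) (by linarith) (fun z z' h => by
        have h' : z = z' := h
        rw [h']) (fun z z' _ h => hinj z z' h) htt ?_ ?_ ?_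
    · intro x x' y y' _ h4 h5 i hi
      exact hkey x x' y y' h4 h5 i ((memB i _).1 hi)
    · intro x x' y y' h3 _ h5 i hi
      refine hkey y y' x x' h3 ?_ i ((memB i _).1 hi)
      have h5' : x ⊓ y = x' ⊓ y' := h5
      rw [inf_comm y x, inf_comm y' x', h5']
    · intro i
      refine (hu _ (hjM i)).trans (le_of_eq ?_)
      congr 2
      refine Finset.filter_congr fun y _ => ?_
      rw [memB, mem_cls y _ (hjM i)]
  -- the second step
  have hBB : S (fun p : L × L => cls (p.1 ⊓ p.2)) + 2 * (1 / 2 - e - e1) *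
      (Fintype.card L : ℝ) * (S cls1 - S cls) ≤ S (fun p : L × L => cls1 (p.1 ⊓ p.2)) := by
    have hkey : ∀ x x' y y' : L, cls1 y = cls1 y' → cls (x ⊓ y) = cls (x' ⊓ y') →
        ∀ i, j i ∈ cls1 y → (g (j i) ≤ x ↔ g (j i) ≤ x') := by
      intro x x' y y' h h' i hi
      rw [mem_cls1 y _ (hjM i)] at hi
      have hi' := ((cls1_iff y y').1 h _ (hjM i)).1 hi
      have e3 := (hg1 _ (hjM i)).trans hi
      have e4 := (hg1 _ (hjM i)).trans hi'
      have e5 := (cls_iff _ _).1 h' _ (hjM i)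
      rw [le_inf_iff, le_inf_iff] at e5
      tauto
    refine two_step (fun x y : L => x ⊓ y) cls cls1 (fun (i : Fin M.card) x => g (j i) ≤ x) B
      (1 / 2 - e - e1) (by linarith) (fun z z' h => (cls1_iff z z').2
        (hgg z z' ((cls_iff z z').1 h))) (fun z z' _ h => (cls_iff z z').2 ?_) htt1 ?_ ?_ ?_
    · intro m hm
      obtain ⟨i, rfl⟩ := hjs m hm
      exact iff_of_eq (h i)
    · intro x x' y y' _ h4 h5 i hi
      exact propext (hkey x x' y y' h4 h5 i ((memB i _).1 hi))
    · intro x x' y y' h3 _ h5 i hi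
      refine propext (hkey y y' x x' h3 ?_ i ((memB i _).1 hi))
      have h5' : cls (x ⊓ y) = cls (x' ⊓ y') := h5
      rw [inf_comm y x, inf_comm y' x', h5']
    · intro i
      refine (hu1 _ (hjM i)).trans (le_of_eq ?_)
      congr 2
      refine Finset.filter_congr fun y _ => ?_
      rw [memB, mem_cls1 y _ (hjM i)]
  have hfin := Pool.Agent.H40.VC.FinalS.final (fun x y : L => x ⊓ y) cls cls1 e e1 he he1 h2 K K1
    hK hK1 hA hBB E (hE2.trans (Nat.cast_le.2 (Finset.card_le_card fun p hp => by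
      simp only [Finset.mem_filter, Finset.mem_univ, true_and] at hp ⊢
      exact hp)))
  refine le_trans ?_ hfin
  have hEpos : (0 : ℝ) < E.card := by
    rcases E.eq_empty_or_nonempty with h0 | h0
    · exfalso
      rw [h0] at hE2
      simp only [Finset.notMem_empty, Finset.filter_false, Finset.card_empty, Nat.cast_zero] at hE2
      nlinarith
    · exact_mod_cast Finset.card_pos.2 h0
  have hpos : 0 < 16 * (e + Real.log K / (2 * Real.log (Fintype.card L))) := by
    by_contra hcon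
    push Not at hcon
    have := mul_nonpos_of_nonpos_of_nonneg hcon hNpos.le
    linarith
  have : 1 / (16 * (e + Real.log K / (2 * Real.log (Fintype.card L)))) ≤ N / E.card := by
    rw [div_le_div_iff₀ hpos hEpos]
    linarith
  have h7 := Real.log_le_log (by positivity) this
  linarith

end Pool.Agent.H34.VC.Core
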